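import Pool.Agent.Helper15.T6.Stmts

set_option autoImplicit false

/-!
T6, row CM: the moments on the cycle classes.
-/

open Finset MeasureTheory Filter Topology

namespace Pool.Agent.Helper15.T6

open Pool.Agent.Helper15.T4 (IsPM PM cov IsMat nsq po)

lemma h25_WK (d K N : ℕ) (M : Finset (Sym2 (HE (2 * N) d)))
    (hM : M ∈ PM (univ : Finset (HE (2 * N) d))) :
    WK d K N M * ∑ M' ∈ PM (univ : Finset (HE (2 * N) d)), ((Zc M' : ℤ) : ℝ) ^ (2 * K) =
      ((Zc M : ℤ) : ℝ) ^ (2 * K) := by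
  unfold WK
  have hn : ∀ M' : Finset (Sym2 (HE (2 * N) d)), 0 ≤ ((Zc M' : ℤ) : ℝ) ^ (2 * K) := by
    intro M'
    rw [pow_mul]
    positivity
  by_cases h : ∑ M' ∈ PM (univ : Finset (HE (2 * N) d)), ((Zc M' : ℤ) : ℝ) ^ (2 * K) = 0
  · rw [h, mul_zero]
    exact (((Finset.sum_eq_zero_iff_of_nonneg (fun M' _ => hn M')).mp h) M hM).symm
  · exact div_mul_cancel₀ _ h

open Classical in
theorem st_CM (hTL : ST_TL) (hPOI : ST_POI) (hSERT : ST_SERT) (hRAT : ST_RAT) : ST_CM := by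
  intro d hd K m z
  have ht : ∀ k, 0 ≤ tau d k ^ K := by
    intro k
    rcases Nat.eq_zero_or_pos k with h | h
    · subst h
      rw [(hSERT d hd).1]
      positivity
    · have := ((hSERT d hd).2.1 k h).le
      positivity
  have h1 := hPOI d (by omega) (WK d K) (fun k => tau d k ^ K) (hTL d hd K) ht m z
  have h2 := (hRAT d hd K).mul h1
  refine h2.congr (fun N => ?_)
  have h3 : ∀ M ∈ (PM (univ : Finset (HE (2 * N) d))).filter
      (fun M => (fun k : Fin m => Zs m k M) = z),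
      (((Zc M : ℤ) : ℝ) ^ 2 / EZ d 1 N) ^ K = WK d K N M *
        (∑ M' ∈ PM (univ : Finset (HE (2 * N) d)), ((Zc M' : ℤ) : ℝ) ^ (2 * K)) / EZ d 1 N ^ K := by
    intro M hM
    rw [h25_WK d K N M (Finset.mem_filter.mp hM).1, div_pow, ← pow_mul]
  have h4 : EZ d K N = (∑ M ∈ PM (univ : Finset (HE (2 * N) d)), ((Zc M : ℤ) : ℝ) ^ (2 * K)) /
      ((PM (univ : Finset (HE (2 * N) d))).card : ℝ) := rfl
  rw [Finset.sum_congr rfl h3, ← Finset.sum_div, ← Finset.sum_mul, h4]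
  generalize (∑ M ∈ PM (univ : Finset (HE (2 * N) d)), ((Zc M : ℤ) : ℝ) ^ (2 * K)) = T
  generalize ((PM (univ : Finset (HE (2 * N) d))).card : ℝ) = P
  generalize EZ d 1 N ^ K = R
  rw [div_div, div_mul_eq_mul_div, div_div, mul_comm P R, mul_comm T]

end Pool.Agent.Helper15.T6
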