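import Pool.Agent.Helper15.T6.Stmts

set_option autoImplicit false

/-!
T6, row POI.
-/

open Finset MeasureTheory Filter Topology

namespace Pool.Agent.Helper15.T6

open Pool.Agent.Helper15.T4 (IsPM PM cov IsMat nsq po)

theorem st_POI (hFM : ST_FM) (hMOM : Pool.Agent.Helper15.T4.ST_MOM) : ST_POI := by
  classical
  intro d hd W τ hG hτ m z
  have hl : ∀ k : ℕ, 0 ≤ lam d k := by
    intro k
    unfold lam
    have : (0 : ℝ) ≤ (d : ℝ) - 1 := by
      have : (1 : ℝ) ≤ d := by exact_mod_cast hd
      linarith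
    positivity
  have h := hMOM (fun N => Finset (Sym2 (HE (2 * N) d))) (fun N => PM (univ : Finset (HE (2 * N) d))) W m
    (fun N M k => Zs m k M) (fun k => lam d k * τ k) hG.nonneg (fun k => mul_nonneg (hl k) (hτ k))
    (fun j => hFM d hd W τ hG m j) z
  refine h.congr ?_
  intro N
  refine Finset.sum_congr ?_ (fun _ _ => rfl)
  ext M
  simp only [Finset.mem_filter]

end Pool.Agent.Helper15.T6
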