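import Pool.Agent.Helper15.T6.Stmts

set_option autoImplicit false

/-!
T6, row TL (the tilted laws are good).
-/

open Finset MeasureTheory Filter Topology

namespace Pool.Agent.Helper15.T6

open Pool.Agent.Helper15.T4 (IsPM PM cov IsMat nsq po)

/-- The total mass is positive. -/
theorem zsum_pos (zm : ST_ZM) (pq : ST_PQ) (sofb : ST_SOFB) (d : ℕ) (hd : 3 ≤ d) (K N : ℕ) :
    0 < ∑ M ∈ PM (univ : Finset (HE (2 * N) d)), ((Zc M : ℤ) : ℝ) ^ (2 * K) := by
  rw [zm d K (2 * N)]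
  exact (sofb _ _ _ _ (pq d hd K).1).1 N

/-- TL. -/
theorem st_TL (tlc : ST_TLC) (tlb : ST_TLB) (zm : ST_ZM) (pq : ST_PQ) (sofb : ST_SOFB) : ST_TL := by
  intro d hd K
  have hnn : ∀ (n : ℕ) (M : Finset (Sym2 (HE n d))), 0 ≤ ((Zc M : ℤ) : ℝ) ^ (2 * K) := by
    intro n M
    rw [pow_mul]
    positivity
  refine ⟨?_, ?_, ?_, ?_⟩
  · intro N M
    unfold WK
    exact div_nonneg (hnn _ _) (sum_nonneg fun M' _ => hnn _ _)
  · refine Eventually.of_forall fun N => ?_
    unfold WK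
    rw [← sum_div, div_self (zsum_pos zm pq sofb d hd K N).ne']
  · intro I _ _ κ
    exact tlc d hd K I κ
  · intro f
    exact tlb d hd K f

end Pool.Agent.Helper15.T6
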