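import Pool.Agent.Helper46.T6.Stmts

set_option autoImplicit false

/-!
Row L_SCAL: scaling of the Gaussian integral, general degree.
-/

open Finset MeasureTheory Filter Topology

namespace Pool.Agent.Helper25.T6G

open Pool.Agent.Helper15.T4 (IsPM PM cov IsMat nsq po)
open Pool.Agent.Helper15.T6
open Pool.Agent.Helper46.T6

lemma h25_PJ_smul {d : ℕ} {J : Type} [Fintype J] [DecidableEq J] (s : ℝ) (x : (J → Fin d) → ℝ) :
    PJ J (s • x) = s ^ d * PJ J x := by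
  unfold PJ TJ
  rw [Finset.mul_sum]
  refine Finset.sum_congr rfl (fun π _ => ?_)
  have : ∏ i : Fin d, (s • x) (fun j => π j i) = s ^ d * ∏ i : Fin d, x (fun j => π j i) := by
    simp only [Pi.smul_apply, smul_eq_mul]
    rw [Finset.prod_mul_distrib, Finset.prod_const, Finset.card_univ, Fintype.card_fin]
  rw [this]
  ring

lemma h25_nsq_smul' {ι : Type} [Fintype ι] (s : ℝ) (x : ι → ℝ) : nsq (s • x) = s ^ 2 * nsq x := by
  unfold nsq
  rw [Finset.mul_sum]
  refine Finset.sum_congr rfl (fun i _ => ?_)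
  simp only [Pi.smul_apply, smul_eq_mul]
  ring

theorem st_SCAL : ST_SCAL := by
  intro d hd K N hN
  have hN0 : (0 : ℝ) < N := by exact_mod_cast hN
  have hd0 : (0 : ℝ) < d := by exact_mod_cast hd
  have hcard : Fintype.card (Fin K × Fin 2 → Fin d) = d ^ (2 * K) := by
    rw [Fintype.card_fun, Fintype.card_prod, Fintype.card_fin, Fintype.card_fin,
      Fintype.card_fin, mul_comm]
  obtain ⟨D, hD⟩ : ∃ D : ℕ, D = d ^ (2 * K) := ⟨_, rfl⟩
  rw [← hD] at hcard
  have h6 : (0 : ℝ) < 2 * d * N := by positivity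
  obtain ⟨s, hs⟩ : ∃ s : ℝ, s = Real.sqrt (2 * d * N) := ⟨_, rfl⟩
  have hs0 : 0 < s := by rw [hs]; exact Real.sqrt_pos.mpr h6
  have hs2 : s ^ 2 = 2 * d * N := by rw [hs]; exact Real.sq_sqrt h6.le
  have hq0 : (0 : ℝ) < qd d := by
    unfold qd
    have : 0 < Real.sqrt d := Real.sqrt_pos.mpr hd0
    positivity
  -- the integrand
  obtain ⟨F, hF⟩ : ∃ F : ((Fin K × Fin 2 → Fin d) → ℝ) → ℝ,
    F = fun x => PJ (Fin K × Fin 2) x ^ (2 * N) * Real.exp (-(nsq x) / 2) := ⟨_, rfl⟩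
  have h1 : GR (fun x : (Fin K × Fin 2 → Fin d) → ℝ => PJ (Fin K × Fin 2) x ^ (2 * N)) =
      (2 * Real.pi) ^ (-(D : ℝ) / 2) * ∫ x, F x := by
    unfold GR
    rw [hcard, hF]
  have h2 : ∫ x, F x = s ^ D * ∫ y, F (s • y) := by
    have h3 := Measure.integral_comp_smul (volume : Measure ((Fin K × Fin 2 → Fin d) → ℝ)) F s
    have h4 : Module.finrank ℝ ((Fin K × Fin 2 → Fin d) → ℝ) = D := by
      rw [Module.finrank_fintype_fun_eq_card, hcard]
    rw [h4, smul_eq_mul] at h3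
    rw [h3, abs_of_pos (by positivity), ← mul_assoc, mul_inv_cancel₀ (by positivity), one_mul]
  have h5 : ∀ y, F (s • y) = (NFd d N * (qd d ^ (2 * K)) ^ N) * fvd d K y ^ (2 * N) := by
    intro y
    rw [hF]
    show PJ (Fin K × Fin 2) (s • y) ^ (2 * N) * Real.exp (-(nsq (s • y)) / 2) = _
    rw [h25_PJ_smul, h25_nsq_smul', hs2]
    unfold fvd NFd
    have e2 : (s ^ d * PJ (Fin K × Fin 2) y) ^ (2 * N) =
        (2 * (d : ℝ) * (N : ℝ)) ^ (d * N) * PJ (Fin K × Fin 2) y ^ (2 * N) := by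
      rw [mul_pow, ← pow_mul, ← hs2, ← pow_mul]
      congr 2
      ring
    have e3 : (PJ (Fin K × Fin 2) y * Real.exp (-((d : ℝ) / 2) * (nsq y - 1)) / qd d ^ K) ^ (2 * N) =
        PJ (Fin K × Fin 2) y ^ (2 * N) * Real.exp (-((d : ℝ) / 2) * (nsq y - 1)) ^ (2 * N) /
          (qd d ^ (2 * K)) ^ N := by
      rw [div_pow, mul_pow, ← pow_mul, ← pow_mul]
      congr 2
      ring
    rw [e2, e3, ← Real.exp_nat_mul]
    have e4 : Real.exp (-(2 * (d : ℝ) * (N : ℝ) * nsq y) / 2) =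
        Real.exp (-((d : ℝ) * N)) * Real.exp (((2 * N : ℕ) : ℝ) * (-((d : ℝ) / 2) * (nsq y - 1))) := by
      rw [← Real.exp_add]
      congr 1
      push_cast
      ring
    rw [e4]
    have hqK : (qd d ^ (2 * K)) ^ N ≠ 0 := by positivity
    field_simp
  rw [h1, h2]
  have h6' : (fun y => F (s • y)) = fun y => (NFd d N * (qd d ^ (2 * K)) ^ N) *
      fvd d K y ^ (2 * N) := funext h5
  rw [h6', integral_const_mul]
  have h7 : (2 * Real.pi) ^ (-(D : ℝ) / 2) * s ^ D =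
      ((d : ℝ) * (N : ℝ) / Real.pi) ^ ((d : ℝ) ^ (2 * K) / 2) := by
    have hDr : (D : ℝ) = (d : ℝ) ^ (2 * K) := by rw [hD]; push_cast; rfl
    have e1 : s ^ D = (2 * (d : ℝ) * (N : ℝ)) ^ ((D : ℝ) / 2) := by
      rw [hs, Real.sqrt_eq_rpow, ← Real.rpow_natCast, ← Real.rpow_mul h6.le]
      congr 1
      ring
    have e2 : (2 * Real.pi) ^ (-(D : ℝ) / 2) = ((2 * Real.pi)⁻¹) ^ ((D : ℝ) / 2) := by
      rw [neg_div, Real.rpow_neg (by positivity), Real.inv_rpow (by positivity)]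
    rw [e1, e2, ← Real.mul_rpow (by positivity) (by positivity), hDr]
    congr 1
    field_simp
  rw [← h7]
  ring

end Pool.Agent.Helper25.T6G
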